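import Mathlib
import Pool.Agent.W223.VD.Points
import Pool.Agent.W223.CV.Core
import Pool.Agent.W469.CV.REL
import Pool.Agent.W469.CV.MH
import Pool.Agent.W125.CV.HT
import Pool.Agent.W930.CV.KUM

/-!
# The height inequality with discriminant term on abelian covers of the projective line

`P_0, …, P_{q-1}` are distinct rational points of the projective line. A Kummer cover
`y_i ^ m_i = a_i ∏_j (u_j - x w_j) ^ e_ij` (`P_j = (u_j : w_j)`, `m_i ∣ ∑_j e_ij`) of the line is
branched above the `P_j` only: Fermat curves, superelliptic curves, ... If `C` is a component of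
its normalisation, then the ramification index of `x : C → ℙ¹` above `P_j` is
`n_j = lcm_i (m_i / gcd (m_i, e_ij))`, and `K_C = x^* (K + ∑ (1 - 1 / n_j) P_j)`. For a set `J` of
indices let `D_J` be the sum of the points of `C` above the points `P_j`, `j ∈ J`. Then
`h_{K_C + D_J}(P) = (|J| + ∑_{j ∉ J} (1 - 1 / n_j) - 2) h(x(P)) + O(1)`.

We prove Vojta's inequality with truncated counting function and discriminant term for `(C, D_J)`
and all points of `C` above the algebraic numbers `x` of degree `r ≥ 2` over `ℚ` and height at most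
`log B`, with few exceptional `x`. The exceptional set of `x` is the same for all Kummer covers
whose coefficients `a_i` are `S`-units and for all `J`.

Proof: the truncated inequality for `x` (`Pool.Agent.W223.VD.Points`) goes
up to every extension `L` of `ℚ(x)`, since a prime of `ℚ(x)` at which `x` is close to some `P_j` is
either counted by the truncated counting function over `L` or by the different of `L / ℚ(x)`; and
the local heights of `x` with respect to `P_j` are divisible by `n_j` over `L = ℚ(P)`.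
-/

set_option autoImplicit false

namespace Pool.Agent.Results.MP_6f1c57_nt.KummerCovers

open Polynomial IntermediateField IsDedekindDomain NumberField

/-- The absolute logarithmic height `(log M(f)) / deg f` of the roots of an irreducible integral
polynomial `f` (`M` is the Mahler measure). -/
noncomputable def height (f : ℤ[X]) : ℝ :=
  Real.log (f.map (Int.castRingHom ℂ)).mahlerMeasure / f.natDegree

/-- A Kummer cover of the line with `q` branch points, given by the exponents `m_i`, `e_ij` and the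
coefficients `a_i`, `i < s`, `j < q`. -/
structure Cover (q : ℕ) where
  /-- the number of equations -/
  s : ℕ
  /-- the exponent of `y_i` -/
  m : Fin s → ℕ
  /-- the coefficient of the equation for `y_i` -/
  a : Fin s → ℤ
  /-- the exponent of `u_j - x w_j` in the equation for `y_i` -/
  e : Fin s → Fin q → ℕ

/-- The exponents `m_i` are positive and divide `∑_j e_ij`, the coefficients `a_i` are different
from `0` and have no prime divisors outside `S`. -/
def Cover.Good {q : ℕ} (𝒞 : Cover q) (S : Finset ℕ) : Prop :=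
  ∀ i, 1 ≤ 𝒞.m i ∧ 𝒞.m i ∣ ∑ j, 𝒞.e i j ∧ 𝒞.a i ≠ 0 ∧
    ∀ p : ℕ, p.Prime → (p : ℤ) ∣ 𝒞.a i → p ∈ S

/-- The point `(x, y)` lies on the Kummer cover:
`y_i ^ m_i = a_i ∏_j (u_j - x w_j) ^ e_ij` for all `i`. -/
def Cover.On {q : ℕ} (𝒞 : Cover q) (P : Fin q → ℤ × ℤ) (x : ℂ) (y : Fin 𝒞.s → ℂ) : Prop :=
  ∀ i, y i ^ 𝒞.m i = (𝒞.a i : ℂ) * ∏ j, (((P j).1 : ℂ) - x * ((P j).2 : ℂ)) ^ 𝒞.e i j

/-- The ramification index `n_j = lcm_i (m_i / gcd (m_i, e_ij))` above `P_j`. -/
def Cover.ram {q : ℕ} (𝒞 : Cover q) (j : Fin q) : ℕ :=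
  Finset.univ.lcm fun i => 𝒞.m i / Nat.gcd (𝒞.m i) (𝒞.e i j)

/-- The residue field `ℚ(x, y)` of the point `(x, y)`. -/
noncomputable def residueField {s : ℕ} (x : ℂ) (y : Fin s → ℂ) : IntermediateField ℚ ℂ :=
  IntermediateField.adjoin ℚ (insert x (Set.range y))

/-- `x` as an element of the residue field. -/
noncomputable def coord {s : ℕ} (x : ℂ) (y : Fin s → ℂ) : residueField x y :=
  ⟨x, IntermediateField.subset_adjoin ℚ _ (Set.mem_insert _ _)⟩

open Classical in
/-- The truncated counting function `N_S^{(1)}(D_J, P)` of the sum `D_J` of the points above the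
`P_j`, `j ∈ J`, at a point `P` above `x` with residue field `L`: the sum of `log N(v) / [L : ℚ]`
over the primes `v` of `L`, not above primes of `S`, at which
`|u_j - x w_j|_v < max(|x|_v, 1)` for some `j ∈ J`. -/
noncomputable def truncated {q : ℕ} (S : Finset ℕ) (P : Fin q → ℤ × ℤ) (J : Finset (Fin q))
    (L : IntermediateField ℚ ℂ) (x : L) : ℝ :=
  if _ : NumberField L then
    (∑ᶠ v : HeightOneSpectrum (𝓞 L),
      if (∀ p ∈ S, (p : 𝓞 L) ∉ v.asIdeal) ∧
        ∃ j ∈ J, v.valuation L (((P j).1 : L) - x * ((P j).2 : L)) < max (v.valuation L x) 1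
      then Real.log (Ideal.absNorm v.asIdeal) else 0) / Module.finrank ℚ L
  else 0

open Classical in
/-- The logarithmic discriminant `log |disc L| / [L : ℚ]`. -/
noncomputable def logDisc (L : IntermediateField ℚ ℂ) : ℝ :=
  if _ : NumberField L then
    Real.log |(NumberField.discr L : ℝ)| / Module.finrank ℚ L else 0

/-- The coefficient `|J| + ∑_{j ∉ J} (1 - 1 / n_j) - κ`: for `κ = 2 + ε` the number
`(|J| + ∑_{j ∉ J} (1 - 1 / n_j) - κ) h(x)` is `h_{K + D_J}(P) - ε h(x)` up to a bounded function. -/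
noncomputable def Cover.coeff {q : ℕ} (𝒞 : Cover q) (J : Finset (Fin q)) (κ : ℝ) : ℝ :=
  ∑ _j ∈ J, (1 : ℝ) + ∑ j ∈ Jᶜ, (1 - 1 / (𝒞.ram j : ℝ)) - κ

/-- The algebraic numbers `x` of degree `r` and height at most `log B` for which some point
`P = (x, y)` of some Kummer cover violates
`(|J| + ∑_{j ∉ J} (1 - 1 / n_j) - κ) h(x) ≤ N_S^{(1)}(D_J, P) + d(P) + C₀` for some `J`. -/
def exceptional {q : ℕ} (S : Finset ℕ) (P : Fin q → ℤ × ℤ) (r : ℕ) (κ C₀ B : ℝ) : Set ℂ :=
  {x | ∃ f : ℤ[X], Irreducible f ∧ f.natDegree = r ∧ aeval x f = 0 ∧ height f ≤ Real.log B ∧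
    ∃ 𝒞 : Cover q, 𝒞.Good S ∧ ∃ (J : Finset (Fin q)) (y : Fin 𝒞.s → ℂ), 𝒞.On P x y ∧
      truncated S P J (residueField x y) (coord x y) + logDisc (residueField x y) + C₀ <
        𝒞.coeff J κ * height f}

/-- The number of number fields of degree `r` and discriminant at most `Δ` is
`O(Δ ^ (alpha r c η))`: here `alpha r c η` is the smaller of
`(r - 1) (r + 2) / (4 ⌈r / 2⌉)` and `c r ^ η`. -/
noncomputable def alpha (r : ℕ) (c η : ℝ) : ℝ :=
  min (((r : ℝ) - 1) * (r + 2) / (4 * ((r + 1) / 2 : ℕ))) (c * (r : ℝ) ^ η)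

/-- The exponent of the theorem: with `m = min q (r + 1)`, the smaller of `α (q - κ)` and
`((q α - 2) (r + 1 - m) + m α (q - κ)) / (q α + m - 2)`. -/
noncomputable def exponent (α : ℝ) (r q : ℕ) (κ : ℝ) : ℝ :=
  min (α * (q - κ)) (((q * α - 2) * (r + 1 - (min q (r + 1) : ℕ)) +
    (min q (r + 1) : ℕ) * α * (q - κ)) / (q * α + (min q (r + 1) : ℕ) - 2))

open Pool.Agent.W223.CV in
lemma lin_ne_zero {r : ℕ} (hr : 2 ≤ r) {f : ℤ[X]} (hf : Irreducible f) (hd : f.natDegree = r)
    {L : Type} [Field L] [NumberField L] {x : L} (hx : aeval x f = 0) (P : ℤ × ℤ)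
    (hP : IsCoprime P.1 P.2) : lin P x ≠ 0 :=
  Pool.Agent.W598.VD.TR.L_ne_zero x f P hx (Pool.Agent.W223.VD.value_ne_zero hr hf hd P hP)

/-- the primes dividing one of the determinants -/
def detPrimes {q : ℕ} (P : Fin q → ℤ × ℤ) : Finset ℕ :=
  Finset.univ.biUnion fun i : Fin q => Finset.univ.biUnion fun j : Fin q =>
    ((P i).1 * (P j).2 - (P j).1 * (P i).2).natAbs.primeFactors

lemma mem_detPrimes {q : ℕ} {P : Fin q → ℤ × ℤ} {i j : Fin q}
    (h : (P i).1 * (P j).2 - (P j).1 * (P i).2 ≠ 0) {p : ℕ} (hp : p.Prime)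
    (hd : (p : ℤ) ∣ (P i).1 * (P j).2 - (P j).1 * (P i).2) : p ∈ detPrimes P := by
  unfold detPrimes
  rw [Finset.mem_biUnion]
  refine ⟨i, Finset.mem_univ _, ?_⟩
  rw [Finset.mem_biUnion]
  refine ⟨j, Finset.mem_univ _, ?_⟩
  rw [Nat.mem_primeFactors]
  refine ⟨hp, ?_, ?_⟩
  · exact Int.natCast_dvd.mp hd
  · exact Int.natAbs_ne_zero.mpr h

lemma isIntegral_coords {f : ℤ[X]} (hf : Irreducible f) {x : ℂ} (hx : aeval x f = 0) {q : ℕ} (P : Fin q → ℤ × ℤ) (𝒞 : Cover q)
    (hm : ∀ i, 1 ≤ 𝒞.m i) (y : Fin 𝒞.s → ℂ) (hy : 𝒞.On P x y) :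
    IsIntegral ℚ x ∧ ∀ i, IsIntegral ℚ (y i) := by
  have hx1 : IsIntegral ℚ x := by
    have h1 : IsAlgebraic ℤ x := ⟨f, hf.ne_zero, hx⟩
    have h2 : IsAlgebraic ℚ x := h1.extendScalars (algebraMap ℤ ℚ).injective_int
    exact h2.isIntegral
  refine ⟨hx1, fun i => ?_⟩
  have h1 : IsIntegral ℚ (y i ^ 𝒞.m i) := by
    rw [hy i]
    refine IsIntegral.mul ?_ ?_
    · exact isIntegral_intCast _
    · refine IsIntegral.prod _ fun j _ => IsIntegral.pow ?_ _
      exact IsIntegral.sub (isIntegral_intCast _) (IsIntegral.mul hx1 (isIntegral_intCast _))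
  exact IsIntegral.of_pow (hm i) h1

/-- **The truncated Vojta inequality with discriminant term on Kummer covers of the line.**
Let `η > 0`. There is `c ≥ 1` such that for all `r ≥ 2`, all `q ≥ 3` distinct rational points
`P_j = (u_j : w_j)` of the line, all finite sets `S` of primes and all real `κ ≤ q`, `C₀` and
`δ > 0` the following holds for all `B ≥ 1`: for all but
`C * B ^ (r * exponent (alpha r c η) r q κ + δ)` algebraic numbers `x` of degree `r` and height at
most `log B`, all Kummer covers branched above the `P_j` only whose coefficients are `S`-units, all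
their points `P` above `x` and all `J` satisfy
`(|J| + ∑_{j ∉ J} (1 - 1 / n_j) - κ) h(x) ≤ N_S^{(1)}(D_J, P) + d(P) + C₀`. -/
theorem result : ∀ η : ℝ, 0 < η → ∃ c : ℝ, 1 ≤ c ∧ ∀ (r q : ℕ), 2 ≤ r → 3 ≤ q →
    ∀ P : Fin q → ℤ × ℤ, (∀ j, IsCoprime (P j).1 (P j).2) →
    (∀ i j, i ≠ j → (P i).1 * (P j).2 ≠ (P j).1 * (P i).2) →
    ∀ S : Finset ℕ, (∀ p ∈ S, p.Prime) → ∀ κ C₀ δ : ℝ, κ ≤ q → 0 < δ →
    ∃ C : ℝ, ∀ B : ℝ, 1 ≤ B → (exceptional S P r κ C₀ B).Finite ∧
      ((exceptional S P r κ C₀ B).ncard : ℝ) ≤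
        C * B ^ ((r : ℝ) * exponent (alpha r c η) r q κ + δ) := by
  classical
  intro η hη
  obtain ⟨c, hc, hα⟩ := Pool.Agent.W223.VD.Points.result η hη
  refine ⟨c, hc, ?_⟩
  intro r q hr hq P hP hPP S hS κ C₀ δ hκ hδ
  have hdet : ∀ i j, i ≠ j → (P i).1 * (P j).2 - (P j).1 * (P i).2 ≠ 0 :=
    fun i j hij => sub_ne_zero.mpr (hPP i j hij)
  have hPZ : ∀ j, P j ≠ 0 := by
    intro j h
    have h1 := hP j
    rw [h] at h1
    obtain ⟨a, b, hab⟩ := h1
    simp at hab
  set S' := S ∪ detPrimes P with hS'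
  have hS'p : ∀ p ∈ S', p.Prime := by
    intro p hp
    rcases Finset.mem_union.mp hp with h | h
    · exact hS p h
    · unfold detPrimes at h
      simp only [Finset.mem_biUnion, Finset.mem_univ, true_and] at h
      obtain ⟨i, j, h⟩ := h
      exact Nat.prime_of_mem_primeFactors h
  set C₁ := C₀ - ∑ j, Real.log (|((P j).1 : ℝ)| + |((P j).2 : ℝ)|) with hC₁
  obtain ⟨C, hB⟩ := hα r q hr hq P hP hPP S' hS'p κ C₁ δ hκ hδ
  refine ⟨C, fun B hB1 => ?_⟩
  obtain ⟨h1, h2⟩ := hB B hB1
  have hsub : exceptional S P r κ C₀ B ⊆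
      Pool.Agent.W223.VD.Points.exceptional S' P r κ C₁ B := by
    rintro x ⟨f, hf, hd, hx, hh, 𝒞, hG, J, y, hy, hv⟩
    refine ⟨f, hf, hd, hx, hh, ?_⟩
    by_contra hcon
    rw [not_lt] at hcon
    obtain ⟨hK, hfr⟩ := Pool.Agent.W223.VD.field_data (by omega) hf hd hx
    obtain ⟨hix, hiy⟩ := isIntegral_coords hf hx P 𝒞 (fun i => (hG i).1) y hy
    -- the residue field
    set L := residueField x y with hL
    have hLfin : FiniteDimensional ℚ L := by
      rw [hL]
      unfold residueField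
      have : Finite ↑(insert x (Set.range y)) := ((Set.finite_range y).insert x).to_subtype
      refine IntermediateField.finiteDimensional_adjoin ?_
      intro z hz
      rcases Set.mem_insert_iff.mp hz with h | ⟨i, hi⟩
      · rw [h]; exact hix
      · rw [← hi]; exact hiy i
    have hLN : NumberField L := { to_charZero := inferInstance, to_finiteDimensional := hLfin }
    have hxL : x ∈ L := IntermediateField.subset_adjoin ℚ _ (Set.mem_insert _ _)
    have hyL : ∀ i, y i ∈ L := fun i =>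
      IntermediateField.subset_adjoin ℚ _ (Set.mem_insert_of_mem _ ⟨i, rfl⟩)
    have hle : ℚ⟮x⟯ ≤ L := IntermediateField.adjoin_simple_le_iff.mpr hxL
    let : Algebra ℚ⟮x⟯ L := (IntermediateField.inclusion hle).toRingHom.toAlgebra
    have hgen : algebraMap ℚ⟮x⟯ L (AdjoinSimple.gen ℚ x) = ⟨x, hxL⟩ := rfl
    have hxf : aeval (AdjoinSimple.gen ℚ x) f = 0 := by
      have h9 : (aeval (AdjoinSimple.gen ℚ x) f : ℚ⟮x⟯).1 = 0 := by
        have := aeval_algebraMap_apply ℂ (AdjoinSimple.gen ℚ x) f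
        have h10 : algebraMap ℚ⟮x⟯ ℂ (AdjoinSimple.gen ℚ x) = x := rfl
        rw [h10, hx] at this
        exact this.symm
      exact Subtype.ext h9
    have hlin : ∀ j, Pool.Agent.W223.CV.lin (P j) (AdjoinSimple.gen ℚ x) ≠ 0 :=
      fun j => lin_ne_zero hr hf hd hxf (P j) (hP j)
    have hyeq : ∀ i, (⟨y i, hyL i⟩ : L) ^ 𝒞.m i = (𝒞.a i : L) *
        ∏ j, Pool.Agent.W223.CV.lin (P j) (algebraMap ℚ⟮x⟯ L (AdjoinSimple.gen ℚ x)) ^
          𝒞.e i j := by
      intro i
      rw [hgen]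
      apply Subtype.ext
      have := hy i
      unfold Pool.Agent.W223.CV.lin
      push_cast
      exact this
    have key := Pool.Agent.W223.CV.core Pool.Agent.W469.CV.REL.t Pool.Agent.W125.CV.t
      Pool.Agent.W469.CV.MH.t Pool.Agent.W930.CV.t ℚ⟮x⟯ L S S' Finset.subset_union_left P
      (AdjoinSimple.gen ℚ x) (fun i => (⟨y i, hyL i⟩ : L)) f hf (by omega) hxf 𝒞.m 𝒞.a 𝒞.e
      (fun i => (hG i).1) (fun i => (hG i).2.1) (fun i => (hG i).2.2.1) (fun i => (hG i).2.2.2)
      hdet (fun i j hij p hp hpd => Finset.mem_union_right _ (mem_detPrimes (hdet i j hij) hp hpd))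
      hPZ hlin hyeq J κ C₁ ?_
    · have e1 : truncated S P J L (coord x y) =
          Pool.Agent.W223.CV.cc S (fun v => ∃ j ∈ J, Pool.Agent.W223.CV.Near (P j)
            (algebraMap ℚ⟮x⟯ L (AdjoinSimple.gen ℚ x)) v) / Module.finrank ℚ L := by
        unfold truncated
        rw [dif_pos hLN]
        refine congrArg (fun t : ℝ => t / Module.finrank ℚ L) ?_
        unfold Pool.Agent.W223.CV.cc
        refine finsum_congr fun v => ?_
        by_cases h : (∀ p ∈ S, (p : 𝓞 L) ∉ v.asIdeal) ∧ ∃ j ∈ J, Pool.Agent.W223.CV.Near (P j)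
            (algebraMap ℚ⟮x⟯ L (AdjoinSimple.gen ℚ x)) v
        · rw [Pool.Agent.W223.CV.ct_pos h]
          exact if_pos h
        · rw [Pool.Agent.W223.CV.ct_neg h]
          exact if_neg h
      have e2 : logDisc L = Real.log |(discr L : ℝ)| / Module.finrank ℚ L := by
        unfold logDisc
        rw [dif_pos hLN]
      have e3 : 𝒞.coeff J κ = ∑ _j ∈ J, (1 : ℝ) +
          ∑ j ∈ Jᶜ, (1 - 1 / (Pool.Agent.W223.CV.ram 𝒞.m 𝒞.e j : ℝ)) - κ := rfl
      have e4 : height f = Real.log (Pool.Agent.H813R3.Voj.mahler f) / f.natDegree := rfl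
      rw [e1, e2, e3, e4] at hv
      rw [hC₁] at key
      linarith
    · have e1 : Pool.Agent.W223.VD.Points.truncated S' P x =
          Pool.Agent.W223.VD.cnt S' P (AdjoinSimple.gen ℚ x) / Module.finrank ℚ ℚ⟮x⟯ := by
        unfold Pool.Agent.W223.VD.Points.truncated
        rw [dif_pos hK]
        rfl
      have e2 : Pool.Agent.W223.VD.Points.logDisc x =
          Real.log |(discr ℚ⟮x⟯ : ℝ)| / Module.finrank ℚ ℚ⟮x⟯ := by
        unfold Pool.Agent.W223.VD.Points.logDisc
        rw [dif_pos hK]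
      rw [e1, e2] at hcon
      exact hcon
  refine ⟨h1.subset hsub, ?_⟩
  have h3 : ((exceptional S P r κ C₀ B).ncard : ℝ) ≤
      ((Pool.Agent.W223.VD.Points.exceptional S' P r κ C₁ B).ncard :
        ℝ) := by
    exact_mod_cast Set.ncard_le_ncard hsub h1
  exact h3.trans h2

end Pool.Agent.Results.MP_6f1c57_nt.KummerCovers
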