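import Mathlib
import Pool.Agent.W223.AC.MasterR
import Pool.Agent.W223.AC.Split
import Pool.Agent.W976.AC.EX
import Pool.Agent.W460.AC.NORM
import Pool.Agent.W597.AC.LOC
import Pool.Agent.W193.AC.FINQ
import Pool.Agent.W398.AC.DIM
import Pool.Agent.W131.AC.GROW
import Pool.Agent.W989.AC.MULT
import Pool.Agent.W410.AC.HTG
import Pool.Agent.W803.AC.SUMN
import Pool.Agent.W756.AC.LOCP
import Pool.Agent.W223.AC.SUMP

/-!
# The height inequality with proximity function and discriminant on all curves

Let `C` be a smooth projective curve over a number field, `D` a reduced effective divisor on `C`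
and `t : C → ℙ¹` a finite map of degree `N` over `ℚ` which is unramified outside the fibres over
finitely many rational points `a_1, …, a_q` and maps the points of `D` to the `a_j` (such a map
exists by Belyi's theorem; we may suppose that `a_j ≠ ∞`). Let `A` be the ring of functions on
`C` with poles only over `∞`: a Dedekind domain, finite over `ℚ[t]`. Let
`y_{j 0} = t - a_j, y_{j 1}, …` be generators of the radical of the ideal `(t - a_j)`, the ideal
of the reduced fibre `F_j` over `a_j`. Then `F = ∑ F_j ≥ D`, and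
`(deg K_C) / N = q - 2 - (∑_j dim (A / (y_{j 0}, y_{j 1}, …))) / N`.

The points `P` of `C` (not over `∞`) over a number field `L` are the homomorphisms `φ : A → L`, and
`λ_v(P) = ∑_j max(0, - log max_i |y_{j i}(P)|_v)` is a Weil function of `F` at `v`. We prove that
for `κ > 2`, outside a sparse set of values `x = t(P)` of degree `r` over `ℚ`,
`m_S(F, P) + (q - κ - (∑_j dim (A / (y_{j 0}, y_{j 1}, …))) / N) h(x) ≤ d(L) + ∑_{p ∈ S} log p + C₀`
for all points `P` over `x`, all number fields `L` over which `P` is defined and all finite sets `S`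
of primes.
-/

set_option autoImplicit false

namespace Pool.Agent.Results.MP_6f1c57_nt.ProximityAllCurves

open Polynomial IsDedekindDomain NumberField

/-- The absolute logarithmic height `(log M(f)) / deg f` of the roots of an irreducible integral
polynomial `f` (`M` is the Mahler measure). -/
noncomputable def height (f : ℤ[X]) : ℝ :=
  Real.log (f.map (Int.castRingHom ℂ)).mahlerMeasure / f.natDegree

/-- the function `t` -/
noncomputable def coord (A : Type) [CommRing A] [Algebra ℚ[X] A] : A := algebraMap ℚ[X] A X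

/-- `max (0, - log max_i c_i)` -/
noncomputable def minusLog {s : ℕ} (c : Fin (s + 1) → ℝ) : ℝ := max 0 (-Real.log (⨆ i, c i))

open Classical in
/-- The proximity function `m_S(F, P)`: the sum over the infinite places `w` (with
`mult w = [L_w : ℝ]`) and the primes `v` above the primes of `S` of the local heights
`∑_j max (0, - log max_i |y_{j i}(P)|)`, divided by `[L : ℚ]`. The absolute values are normalised
so that the product formula holds: `|b|_v = N(v) ^ (- v(b))`. -/
noncomputable def proximity {A : Type} [CommRing A] {q : ℕ} (S : Finset ℕ)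
    (u : Fin q → ℕ) (y : ∀ j, Fin (u j + 1) → A)
    (L : IntermediateField ℚ ℂ) [NumberField L] (φ : A →+* L) : ℝ :=
  ((∑ w : InfinitePlace L, (w.mult : ℝ) * ∑ j, minusLog (fun i => w (φ (y j i)))) +
    ∑ᶠ v : HeightOneSpectrum (𝓞 L), if ∃ p ∈ S, (p : 𝓞 L) ∈ v.asIdeal then
      ∑ j, minusLog (fun i => FinitePlace.mk v (φ (y j i))) else 0) / Module.finrank ℚ L

/-- The logarithmic discriminant `log |disc L| / [L : ℚ]`. -/
noncomputable def logDisc (L : IntermediateField ℚ ℂ) [NumberField L] : ℝ :=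
  Real.log |(NumberField.discr L : ℝ)| / Module.finrank ℚ L

/-- `q - (∑_j dim (A / (y_{j 0}, y_{j 1}, …))) / N`, where `N` is the rank of `A` over `ℚ[t]`. -/
noncomputable def degree {A : Type} [CommRing A] [Algebra ℚ A] [Algebra ℚ[X] A] {q : ℕ}
    (u : Fin q → ℕ) (y : ∀ j, Fin (u j + 1) → A) : ℝ :=
  q - (∑ j, (Module.finrank ℚ (A ⧸ Ideal.span (Set.range (y j))) : ℝ)) / Module.finrank ℚ[X] A

/-- The algebraic numbers `x` of degree `r` and height at most `log B` over which there is a point
`P = φ` of the curve, defined over a number field `L`, such that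
`m_S(F, P) + (degree - κ) h(x) ≤ d(L) + ∑_{p ∈ S} log p + C₀` fails for some finite set `S` of
primes. -/
def exceptional {A : Type} [CommRing A] [Algebra ℚ A] [Algebra ℚ[X] A] {q : ℕ}
    (u : Fin q → ℕ) (y : ∀ j, Fin (u j + 1) → A) (r : ℕ) (κ C₀ B : ℝ) : Set ℂ :=
  {x | ∃ f : ℤ[X], Irreducible f ∧ f.natDegree = r ∧ aeval x f = 0 ∧ height f ≤ Real.log B ∧
    ∃ (L : IntermediateField ℚ ℂ) (_ : NumberField L) (φ : A →+* L) (S : Finset ℕ),
      (φ (coord A) : ℂ) = x ∧ (∀ p ∈ S, p.Prime) ∧
      logDisc L + ∑ p ∈ S, Real.log p + C₀ <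
        proximity S u y L φ + (degree u y - κ) * height f}

/-- The number of number fields of degree `r` and discriminant at most `Δ` is
`O(Δ ^ (alpha r c η))`: here `alpha r c η` is the smaller of
`(r - 1) (r + 2) / (4 ⌈r / 2⌉)` and `c r ^ η`. -/
noncomputable def alpha (r : ℕ) (c η : ℝ) : ℝ :=
  min (((r : ℝ) - 1) * (r + 2) / (4 * ((r + 1) / 2 : ℕ))) (c * (r : ℝ) ^ η)

/-- The exponent of the theorem: with `m = min q (r + 1)`, the smaller of `α (q - κ)` and
`((q α - 2) (r + 1 - m) + m α (q - κ)) / (q α + m - 2)`. -/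
noncomputable def exponent (α : ℝ) (r q : ℕ) (κ : ℝ) : ℝ :=
  min (α * (q - κ)) (((q * α - 2) * (r + 1 - (min q (r + 1) : ℕ)) +
    (min q (r + 1) : ℕ) * α * (q - κ)) / (q * α + (min q (r + 1) : ℕ) - 2))

open Classical in
lemma proximity_eq {A : Type} [CommRing A] {q : ℕ} (S : Finset ℕ)
    (u : Fin q → ℕ) (y : ∀ j, Fin (u j + 1) → A)
    (L : IntermediateField ℚ ℂ) [NumberField L] (φ : A →+* L)
    (hf : ∀ j, {v : HeightOneSpectrum (𝓞 L) | Pool.Agent.W223.AC.lamF (y j) φ v ≠ 0}.Finite) :
    proximity S u y L φ = (∑ j, (∑ w : InfinitePlace L, (w.mult : ℝ) *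
      Pool.Agent.W223.AC.lamI (y j) φ w + Pool.Agent.W223.AC.mS S (y j) φ)) /
        Module.finrank ℚ L := by
  unfold proximity
  refine congrArg (fun t : ℝ => t / Module.finrank ℚ L) ?_
  rw [Finset.sum_add_distrib]
  congr 1
  · rw [Finset.sum_comm]
    refine Finset.sum_congr rfl fun w _ => ?_
    rw [Finset.mul_sum]
    rfl
  · unfold Pool.Agent.W223.AC.mS
    rw [← finsum_sum_comm]
    · refine finsum_congr fun v => ?_
      split_ifs
      · rfl
      · rw [Finset.sum_const_zero]
    · intro j _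
      refine (hf j).subset fun v hv => ?_
      rw [Function.mem_support] at hv
      intro h
      apply hv
      rw [h, ite_self]

/-- **The height inequality with proximity function and discriminant on all curves.** Let `η > 0`.
There is `c ≥ 1` such that the following holds. Let `A` be a Dedekind domain, finite over `ℚ[t]`
and containing it (the ring of functions of a smooth affine curve which is finite over the
`t`-line), of rank `N`, let `r ≥ 2`, let `a_1, …, a_q` be `q ≥ 3` distinct rational numbers, let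
`y_{j 0} = t - a_j, y_{j 1}, …, y_{j u_j}` be elements of the radical of the ideal `(t - a_j)`, for
example generators, and let `κ ≤ q`, `C₀` and `δ > 0` be real. Then for all `B ≥ 1`, for all but
`C * B ^ (r * exponent (alpha r c η) r q κ + δ)` algebraic numbers `x` of degree `r` and height at
most `log B`, all points `P` of the curve with `t(P) = x`, all number fields `L` over which `P` is
defined and all finite sets `S` of primes satisfy
`m_S(F, P) + (q - κ - (∑_j dim (A / (y_{j 0}, y_{j 1}, …))) / N) h(x) ≤ d(L) + ∑_{p ∈ S} log p + C₀`.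
-/
theorem result : ∀ η : ℝ, 0 < η → ∃ c : ℝ, 1 ≤ c ∧
    ∀ (A : Type) [CommRing A] [IsDedekindDomain A] [Algebra ℚ A] [Algebra ℚ[X] A]
      [IsScalarTower ℚ ℚ[X] A] [Module.Finite ℚ[X] A] [FaithfulSMul ℚ[X] A]
      (r q : ℕ), 2 ≤ r → 3 ≤ q → ∀ a : Fin q → ℚ, Function.Injective a →
    ∀ (u : Fin q → ℕ) (y : ∀ j, Fin (u j + 1) → A),
    (∀ j, y j 0 = coord A - algebraMap ℚ[X] A (C (a j))) →
    (∀ j i, y j i ∈ (Ideal.span {coord A - algebraMap ℚ[X] A (C (a j))}).radical) →
    ∀ κ C₀ δ : ℝ, κ ≤ q → 0 < δ →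
    ∃ C : ℝ, ∀ B : ℝ, 1 ≤ B → (exceptional u y r κ C₀ B).Finite ∧
      ((exceptional u y r κ C₀ B).ncard : ℝ) ≤
        C * B ^ ((r : ℝ) * exponent (alpha r c η) r q κ + δ) := by
  classical
  intro η hη
  obtain ⟨c, hc, hα⟩ := Pool.Agent.W223.AC.MR.master η hη
  refine ⟨c, hc, ?_⟩
  intro A _ _ _ _ _ _ _ r q hr hq a ha u y hy0 hyr κ C₀ δ hκ hδ
  obtain ⟨ε, hε, hmas⟩ := hα r q hr hq a ha κ δ hκ hδ
  have hq0 : (0 : ℝ) < q := by exact_mod_cast (show 0 < q by omega)
  obtain ⟨M, Ck, G, hM, hCk, hG, hkey⟩ := Pool.Agent.W223.AC.keyG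
    (Pool.Agent.W223.AC.nbp (Pool.Agent.W976.AC.EX.t Pool.Agent.W398.AC.DIM.t
      Pool.Agent.W193.AC.FINQ.t Pool.Agent.W989.AC.MULT.t) Pool.Agent.W756.AC.t
      (Pool.Agent.W410.AC.t Pool.Agent.W131.AC.t) Pool.Agent.W223.AC.SUMP.t
      Pool.Agent.W460.AC.t)
    Pool.Agent.W989.AC.MULT.t Pool.Agent.W597.AC.t A a (fun j : Fin q => j) u y hy0
    (by
      intro k
      have h1 : (Finset.univ.filter fun l : Fin q => l = k) = {k} := by
        ext l
        simp
      rw [h1, Finset.prod_singleton, Ideal.span_le]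
      rintro _ ⟨i, rfl⟩
      exact hyr k i) (ε / q) (by positivity)
  have hSp : ∀ p ∈ (∅ : Finset ℕ) ∪ M.primeFactors, p.Prime := by
    intro p hp
    rcases Finset.mem_union.mp hp with h | h
    · exact absurd h (Finset.notMem_empty p)
    · exact Nat.prime_of_mem_primeFactors h
  obtain ⟨C, hB⟩ := hmas (∅ ∪ M.primeFactors) hSp (C₀ - q * Ck) G hG
  refine ⟨C, fun B hB1 => ?_⟩
  obtain ⟨h1, h2⟩ := hB B hB1
  have hsub : exceptional u y r κ C₀ B ⊆
      Pool.Agent.W223.AC.MR.exc (∅ ∪ M.primeFactors) a r (κ - ε) (C₀ - q * Ck) B G := by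
    rintro x ⟨f, hf, hd, hx, hh, L, hLN, φ, S, hφ, hS, hv⟩
    refine ⟨f, hf, hd, hx, hh, ?_⟩
    by_cases hGx : aeval x G = 0
    · exact Or.inl hGx
    refine Or.inr ⟨L, hLN, φ (coord A), hφ, ?_⟩
    have hxf := Pool.Agent.W223.AC.MR.aeval_L _ hφ f hx
    have hne := fun k => Pool.Agent.W223.AC.MR.ne_rat hr hf hd hxf (a k)
    obtain ⟨hk1, hk2⟩ := hkey L φ (Pool.Agent.W223.AC.MR.aeval_ne _ hφ G hGx) hne
    have hz0 : ∀ l, φ (y l 0) ≠ 0 := by
      intro l
      rw [hy0 l, map_sub]
      have : φ (algebraMap ℚ[X] A (Polynomial.C (a l))) = (a l : L) :=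
        eq_ratCast (φ.comp ((algebraMap ℚ[X] A).comp Polynomial.C)) (a l)
      rw [this]
      exact sub_ne_zero.mpr (hne l)
    have hnf : ∀ l, {v : HeightOneSpectrum (𝓞 L) | Pool.Agent.W223.AC.NearP (y l) φ v}.Finite :=
      fun l => Pool.Agent.W223.AC.near_finite (y l) φ (hz0 l)
    have hk1 := (hk1 ∅).trans ((Pool.Agent.W223.AC.cc_outside Pool.Agent.W803.AC.t S hS _ (by
        refine (Set.finite_iUnion fun l => hnf l).subset ?_
        rintro v ⟨l, -, hv⟩
        exact Set.mem_iUnion.mpr ⟨l, hv⟩)).trans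
      (add_le_add_left (Pool.Agent.W223.CV.cc_exists S Finset.univ
        (fun l (v : HeightOneSpectrum (𝓞 L)) => Pool.Agent.W223.AC.NearP (y l) φ v) hnf) _))
    have hLpos : (0 : ℝ) < Module.finrank ℚ L := by exact_mod_cast Module.finrank_pos
    have hMH := Pool.Agent.W469.CV.MH.t L (φ (coord A)) f hf (by omega) hxf
    have e4 : height f = Real.log (Pool.Agent.H813R3.Voj.mahler f) / f.natDegree := rfl
    have e5 : Pool.Agent.W223.AC.MR.height f = height f := rfl
    rw [← e4] at hMH
    rw [e5]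
    rw [proximity_eq S u y L φ fun j => (hk2 j).1] at hv
    -- the sum over the fibres
    have h5 : ∀ l, Pool.Agent.W223.CV.cc S (fun v : HeightOneSpectrum (𝓞 L) =>
          Pool.Agent.W223.AC.NearP (y l) φ v) +
        (∑ w : InfinitePlace L, (w.mult : ℝ) * Pool.Agent.W223.AC.lamI (y l) φ w +
          Pool.Agent.W223.AC.mS S (y l) φ) ≤
        ((Module.finrank ℚ (A ⧸ Ideal.span (Set.range (y l))) : ℝ) /
            Module.finrank ℚ[X] A + ε / q) * (Module.finrank ℚ L * height f) +
          Module.finrank ℚ L * Ck := by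
      intro l
      obtain ⟨h6, h7⟩ := hk2 l
      have h8 := Pool.Agent.W223.AC.split_prox (y l) φ S (hz0 l) h6
      have h9 : ((Module.finrank ℚ (A ⧸ Ideal.span (Set.range (y l))) : ℝ) /
            Module.finrank ℚ[X] A + ε / q) *
              Real.log (Height.mulHeight₁ (φ (Pool.Agent.W223.AC.tt A))) ≤
          ((Module.finrank ℚ (A ⧸ Ideal.span (Set.range (y l))) : ℝ) /
            Module.finrank ℚ[X] A + ε / q) * (Module.finrank ℚ L * height f) :=
        mul_le_mul_of_nonneg_left hMH (by positivity)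
      linarith
    have h6 := Finset.sum_le_sum fun l (_ : l ∈ Finset.univ) => h5 l
    rw [Finset.sum_add_distrib] at h6
    have h7 : ∑ l, (((Module.finrank ℚ (A ⧸ Ideal.span (Set.range (y l))) : ℝ) /
            Module.finrank ℚ[X] A + ε / q) * (Module.finrank ℚ L * height f) +
          Module.finrank ℚ L * Ck) =
        (q - degree u y + ε) * height f * Module.finrank ℚ L + q * Ck * Module.finrank ℚ L := by
      rw [Finset.sum_add_distrib, ← Finset.sum_mul, Finset.sum_add_distrib, ← Finset.sum_div,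
        Finset.sum_const, Finset.sum_const, Finset.card_univ, Fintype.card_fin, nsmul_eq_mul,
        nsmul_eq_mul, mul_div_cancel₀ _ hq0.ne']
      unfold degree
      ring
    rw [h7] at h6
    have e7 : logDisc L = Real.log |(discr L : ℝ)| / Module.finrank ℚ L := rfl
    rw [e7] at hv
    have h8 : Pool.Agent.W223.VD.cnt (∅ ∪ M.primeFactors)
        (fun k => Pool.Agent.W223.AC.pt (a k)) (φ (coord A)) / Module.finrank ℚ L +
        (∑ j, (∑ w : InfinitePlace L, (w.mult : ℝ) * Pool.Agent.W223.AC.lamI (y j) φ w +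
          Pool.Agent.W223.AC.mS S (y j) φ)) / Module.finrank ℚ L ≤
        (q - degree u y + ε) * height f + q * Ck + ∑ p ∈ S, Real.log p := by
      rw [← add_div, div_le_iff₀ hLpos, add_mul ((q - degree u y + ε) * height f + q * Ck),
        add_mul ((q - degree u y + ε) * height f)]
      have h9 : Pool.Agent.W223.VD.cnt (∅ ∪ M.primeFactors)
        (fun k => Pool.Agent.W223.AC.pt (a k)) (φ (coord A)) ≤
          ∑ l, Pool.Agent.W223.CV.cc S (fun v : HeightOneSpectrum (𝓞 L) =>
          Pool.Agent.W223.AC.NearP (y l) φ v) +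
            Module.finrank ℚ L * ∑ p ∈ S, Real.log p := hk1
      linarith
    have h11 : ((q : ℝ) - (κ - ε)) * height f =
        (degree u y - κ) * height f + (q - degree u y + ε) * height f := by ring
    rw [h11]
    linarith
  refine ⟨h1.subset hsub, ?_⟩
  refine le_trans ?_ h2
  exact_mod_cast Set.ncard_le_ncard hsub h1

end Pool.Agent.Results.MP_6f1c57_nt.ProximityAllCurves
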